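import Pool.Agent.H.MP_4efd05_mp.D

open MeasureTheory Filter Topology Set Real
open scoped ContDiff NNReal

namespace Pool.Agent.Results.MP_4efd05_mp.Bound

open Pool.Agent.H.MP_4efd05_mp

theorem result : ∃ (V : ℝ × ℝ → ℝ) (ψ : ℝ × ℝ → ℂ),
    (∀ z, 0 ≤ V z) ∧ V ≠ 0 ∧ ContDiff ℝ ∞ V ∧ (∀ k : ℕ, ∃ C, ∀ z, ‖iteratedFDeriv ℝ k V z‖ ≤ C) ∧
    (∀ N : ℕ, ∃ C, ∀ x t, |V (x, t)| ≤ C * (1 + x ^ 2) ^ (-(N : ℝ) / 2)) ∧
    (∀ (t E : ℝ) (u v w : ℝ → ℂ), (∀ x, HasDerivAt u (v x) x) →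
      (∀ x y, IntervalIntegrable w volume x y ∧ v y - v x = ∫ s in x..y, w s) → MemLp u 2 volume →
      (∀ᵐ x, -w x + V (x, t) * u x = E * u x) → u = 0) ∧
    ContDiff ℝ ∞ ψ ∧ (∀ z, ψ z ≠ 0) ∧
    (∀ x t, Complex.I * deriv (fun s => ψ (x, s)) t = -deriv (deriv fun y => ψ (y, t)) x + V (x, t) * ψ (x, t)) ∧
    (∃ R a b : ℝ, ∀ x t : ℝ, (R ≤ x → ψ (x, t) = Complex.exp (a - x + t * Complex.I)) ∧
      (x ≤ -R → ψ (x, t) = Complex.exp (b + x + t * Complex.I))) ∧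
    (∃ u : ℝ → Lp ℂ 2 (volume : Measure ℝ), Continuous u ∧ ∀ t, u t =ᵐ[volume] fun x => ψ (x, t)) ∧
    ∀ δ : ℝ, ∃ C : ℝ≥0, ∀ t, eLpNorm (fun x : ℝ => ((1 + x ^ 2) ^ (δ / 2) : ℝ) • ψ (x, t)) 2 volume ≤ C := by
  obtain ⟨V, ψ, R, a, b, v0, v1, sV, pV, zV, sψ, nψ, pψ, pde, far⟩ := main
  obtain ⟨C, hC⟩ := bdd (g := fun z => ψ z * (exp |z.1| : ℝ)) (sψ.continuous.mul (by fun_prop)) (fun z => by simp only [pψ]; simp) R
  have hb : ∀ x t, ‖ψ (x, t)‖ ≤ (max C 0 + exp a + exp b) * exp (-|x|) := fun x t => by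
    have p := exp_pos a; have q := exp_pos b; have r := le_max_right C 0; have s := exp_pos (-|x|)
    rcases le_or_gt |x| R with h | h
    · have := hC x t h
      rw [norm_mul, Complex.norm_real, Real.norm_eq_abs, abs_of_pos (exp_pos _), ← le_div_iff₀ (exp_pos _), div_eq_mul_inv, ← exp_neg] at this
      exact this.trans (by gcongr; linarith [le_max_left C 0])
    rcases le_total 0 x with g | g
    · rw [abs_of_nonneg g] at h s ⊢
      rw [(far x t).1 h.le, Complex.norm_exp]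
      simp only [Complex.add_re, Complex.sub_re, Complex.ofReal_re, Complex.re_ofReal_mul, Complex.I_re, mul_zero, add_zero]
      rw [sub_eq_add_neg, exp_add]; gcongr; linarith
    · rw [abs_of_nonpos g] at h s ⊢
      rw [(far x t).2 (by linarith), Complex.norm_exp]
      simp only [Complex.add_re, Complex.ofReal_re, Complex.re_ofReal_mul, Complex.I_re, mul_zero, add_zero, neg_neg]
      rw [exp_add]; gcongr; linarith
  refine ⟨V, ψ, v0, v1, sV, allbdd sV pV zV, decay sV.continuous pV zV, fun t E u v w hu hw h2 he => ?_, sψ, nψ, pde, ⟨R, a, b, far⟩,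
    l2 sψ.continuous hb⟩
  have cV : Continuous fun x => V (x, t) := sV.continuous.comp (by fun_prop)
  have cu : Continuous u := continuous_iff_continuousAt.2 fun x => (hu x).continuousAt
  refine noeig cV (fun x => v0 _) (fun x => zV x t) E hu (fun x => ?_) h2
  have c : Continuous fun x => ((V (x, t) - E : ℝ) : ℂ) * u x := by fun_prop
  have e : v = fun y => v 0 + ∫ s in (0 : ℝ)..y, ((V (s, t) - E : ℝ) : ℂ) * u s := funext fun y => by
    rw [← intervalIntegral.integral_congr_ae (f := w) (he.mono fun s hs _ => by push_cast; linear_combination -hs), ← (hw 0 y).2]; ring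
  rw [e]
  exact (c.integral_hasStrictDerivAt 0 x).hasDerivAt.const_add _

end Pool.Agent.Results.MP_4efd05_mp.Bound
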